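import Mathlib

/-! The invariant measure of an ergodic PCA is spatially mixing. -/

open MeasureTheory ProbabilityTheory Set Filter Topology
open scoped ENNReal

namespace Pool.Agent.Results.MP_3c7ff8_pr.Mixing

variable {d : ℕ} {S : Type} [Finite S] [MeasurableSpace S] [TopologicalSpace S]
  [DiscreteTopology S] [BorelSpace S]

/-- the transition kernel of the PCA with neighbourhood `N` and local rule `φ` -/
noncomputable def ker (N : Finset (Fin d → ℤ)) (φ : (N → S) → PMF S) (x : (Fin d → ℤ) → S) :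
    Measure ((Fin d → ℤ) → S) :=
  Measure.infinitePi fun i => (φ fun n => x (i + n)).toMeasure

/-- cylinder sets -/
def cyl (D : Finset (Fin d → ℤ)) (w : (Fin d → ℤ) → S) : Set ((Fin d → ℤ) → S) :=
  {x | ∀ i ∈ D, x i = w i}

/-- the shift -/
def shift (k : Fin d → ℤ) (x : (Fin d → ℤ) → S) : (Fin d → ℤ) → S := fun i => x (i + k)

variable {N : Finset (Fin d → ℤ)} {φ : (N → S) → PMF S}

lemma ker_meas : Measurable (ker N φ) := by
  have : ∀ x, IsProbabilityMeasure (ker N φ x) := fun x => by unfold ker; infer_instance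
  refine Measurable.measure_of_isPiSystem_of_isProbabilityMeasure
    generateFrom_squareCylinders.symm (isPiSystem_squareCylinders
      (fun _ => MeasurableSpace.isPiSystem_measurableSet) fun _ => MeasurableSet.univ) ?_
  rintro _ ⟨s, t, ht, rfl⟩
  simp only [ker, Measure.infinitePi_pi _ fun i _ => ht i trivial]
  exact Finset.measurable_prod _ fun i _ => (measurable_of_finite fun u : N → S =>
    (φ u).toMeasure (t i)).comp (f := fun (x : (Fin d → ℤ) → S) (n : N) => x (i + n)) (by fun_prop)

/-- action on functions -/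
noncomputable def P (φ : (N → S) → PMF S) (F : ((Fin d → ℤ) → S) → ℝ≥0∞) (x : (Fin d → ℤ) → S) :
    ℝ≥0∞ := ∫⁻ y, F y ∂ker N φ x

lemma sh_meas (k : Fin d → ℤ) : Measurable (shift (S := S) k) := by unfold shift; fun_prop

lemma P_meas {F : ((Fin d → ℤ) → S) → ℝ≥0∞} (hF : Measurable F) (t : ℕ) :
    Measurable ((P φ)^[t] F) := by
  induction t with
  | zero => exact hF
  | succ t ih =>
    rw [Function.iterate_succ_apply']
    exact (Measure.measurable_lintegral ih).comp ker_meas

lemma P_sh {F : ((Fin d → ℤ) → S) → ℝ≥0∞} (hF : Measurable F) (k : Fin d → ℤ) (t : ℕ) :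
    (P φ)^[t] (F ∘ shift k) = (P φ)^[t] F ∘ shift k := by
  induction t with
  | zero => rfl
  | succ t ih =>
    ext x
    rw [Function.iterate_succ_apply', Function.iterate_succ_apply', ih, Function.comp_apply, P, P]
    simp only [Function.comp]
    rw [← lintegral_map (P_meas hF t) (sh_meas k)]
    congr 1
    simp only [ker, shift, add_right_comm _ _ k]
    exact Measure.map_infinitePi_infinitePi_of_inj (add_left_injective k)

lemma loc {F : ((Fin d → ℤ) → S) → ℝ≥0∞} {A : Finset (Fin d → ℤ)} (h : DependsOn F A) :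
    ∃ g : (A → S) → ℝ≥0∞, F = fun x => g (A.restrict x) := dependsOn_iff_exists_comp.mp h

lemma loc_meas {F : ((Fin d → ℤ) → S) → ℝ≥0∞} {A : Finset (Fin d → ℤ)} (h : DependsOn F A) :
    Measurable F := by
  obtain ⟨g, rfl⟩ := loc h
  exact (measurable_of_finite g).comp (Finset.measurable_restrict A)

lemma P_loc {F : ((Fin d → ℤ) → S) → ℝ≥0∞} {A : Finset (Fin d → ℤ)} (h : DependsOn F A) :
    DependsOn (P φ F) (Finset.image₂ (· + ·) A N) := fun x y hxy => by
  obtain ⟨g, rfl⟩ := loc h
  rw [P, P, ker, ker, lintegral_restrict_infinitePi _ (measurable_of_finite g),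
    lintegral_restrict_infinitePi _ (measurable_of_finite g)]
  have h2 : ∀ i : A, (fun n : N => x (i + n)) = fun n : N => y (i + n) := fun i => funext fun n =>
    hxy _ (Finset.mem_coe.mpr (Finset.mem_image₂_of_mem i.2 n.2))
  simp only [h2]

lemma P_mul (t : ℕ) {F G : ((Fin d → ℤ) → S) → ℝ≥0∞} {A B : Finset (Fin d → ℤ)}
    (hF : DependsOn F A) (hG : DependsOn G B) : ∀ᶠ k in cofinite,
      (P φ)^[t] (F * G ∘ shift k) = (P φ)^[t] F * (P φ)^[t] G ∘ shift k := by
  induction t generalizing F G A B with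
  | zero => simp
  | succ t ih =>
    filter_upwards [ih (P_loc hF) (P_loc hG),
      (Finset.image₂ (· - ·) A B).eventually_cofinite_notMem] with k h1 h2
    simp only [Function.iterate_succ_apply]
    rw [← h1, ← show _ = P φ G ∘ shift k from P_sh (loc_meas hG) k 1]
    congr 1
    ext x
    have h3 : DependsOn (G ∘ shift k) (B.image (· + k)) := fun x y h => hG fun i hi =>
      h _ (Finset.mem_coe.mpr (Finset.mem_image_of_mem _ hi))
    refine lintegral_mul_eq_lintegral_mul_lintegral_of_indepFun (loc_meas hF) (loc_meas h3) ?_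
    obtain ⟨f, rfl⟩ := loc hF
    obtain ⟨g, hg⟩ := loc h3
    rw [hg]
    refine ((iIndepFun_infinitePi (X := fun _ a => a) fun _ => measurable_id).indepFun_finset A _
      (Finset.disjoint_left.mpr fun a ha hb => ?_) (by fun_prop)).comp (measurable_of_finite f)
        (measurable_of_finite g)
    obtain ⟨b, hb', rfl⟩ := Finset.mem_image.mp hb
    exact h2 (Finset.mem_image₂.mpr ⟨_, ha, b, hb', by simp⟩)

theorem result (N : Finset (Fin d → ℤ)) (φ : (N → S) → PMF S)
    (Φ : ProbabilityMeasure ((Fin d → ℤ) → S) → ProbabilityMeasure ((Fin d → ℤ) → S))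
    (hΦ : ∀ μ, (Φ μ : Measure ((Fin d → ℤ) → S)) = Measure.bind μ (ker N φ))
    (π : ProbabilityMeasure ((Fin d → ℤ) → S)) (hπ : Φ π = π)
    (herg : ∀ μ, Tendsto (fun t => Φ^[t] μ) atTop (𝓝 π))
    (D E : Finset (Fin d → ℤ)) (u v : (Fin d → ℤ) → S) :
    Tendsto (fun k => π (cyl D u ∩ shift k ⁻¹' cyl E v)) cofinite
      (𝓝 (π (cyl D u) * π (cyl E v))) := by
  have h1 : ∀ t μ F, Measurable F → ∫⁻ x, F x ∂(Φ^[t] μ : ProbabilityMeasure _) =
      ∫⁻ x, (P φ)^[t] F x ∂μ := fun t => by
    induction t with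
    | zero => simp
    | succ t ih =>
      intro μ F hF
      rw [Function.iterate_succ_apply, ih _ F hF, hΦ, Function.iterate_succ_apply',
        Measure.lintegral_bind ker_meas.aemeasurable (P_meas hF t).aemeasurable]
      rfl
  have hc : ∀ (D : Finset (Fin d → ℤ)) (u : (Fin d → ℤ) → S), IsClopen (cyl D u) := fun D u => by
    rw [show cyl D u = ⋂ i ∈ D, (fun x => x i) ⁻¹' {u i} by ext; simp [cyl]]
    exact isClopen_biInter_finset fun i _ => (isClopen_discrete {u i}).preimage (continuous_apply i)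
  have hl : ∀ (D : Finset (Fin d → ℤ)) (u : (Fin d → ℤ) → S),
      DependsOn ((cyl D u).indicator (1 : ((Fin d → ℤ) → S) → ℝ≥0∞)) D := fun D u x y h => by
    have : x ∈ cyl D u ↔ y ∈ cyl D u := forall₂_congr fun i hi => by rw [h i hi]
    by_cases hx : x ∈ cyl D u
    · rw [indicator_of_mem hx, indicator_of_mem (this.mp hx)]; rfl
    · rw [indicator_of_notMem hx, indicator_of_notMem (mt this.mpr hx)]
  have h2 : ∀ C : Set ((Fin d → ℤ) → S), IsClopen C → ∀ t x, (P φ)^[t] (C.indicator 1) x =
      (Φ^[t] (diracProba x)).toMeasure C := fun C hC t x => by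
    have hm := hC.isOpen.measurableSet
    rw [← lintegral_indicator_one hm, h1 _ _ _ (measurable_one.indicator hm)]
    exact (lintegral_dirac' _ (P_meas (measurable_one.indicator hm) t)).symm
  have h3 : ∀ C : Set ((Fin d → ℤ) → S), IsClopen C → ∀ x, Tendsto
      (fun t => (P φ)^[t] (C.indicator 1) x) atTop (𝓝 (π.toMeasure C)) := fun C hC x => by
    simp only [h2 C hC]
    exact ProbabilityMeasure.tendsto_measure_of_null_frontier_of_tendsto' (herg _) (by simp [hC])
  have h4 : ∀ t F, Measurable F → ∫⁻ x, (P φ)^[t] F x ∂π = ∫⁻ x, F x ∂π := fun t F hF => by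
    rw [← h1 _ _ _ hF, Function.iterate_fixed hπ]
  have hm := fun (D : Finset (Fin d → ℤ)) (u : (Fin d → ℤ) → S) => (hc D u).isOpen.measurableSet
  have h5 : ∀ t k, ∫⁻ x, (P φ)^[t] ((cyl E v).indicator 1) (shift k x) ∂π =
      π.toMeasure (cyl E v) := fun t k => by
    have h6 := P_sh (φ := φ) (loc_meas (hl E v)) k
    obtain ⟨x, -⟩ := nonempty_of_measure_ne_zero (μ := π.toMeasure) (s := univ) (by simp)
    refine ((lintegral_congr fun x => (congrFun (h6 t) x).symm).trans
      (h4 _ _ ((loc_meas (hl E v)).comp (sh_meas k)))).trans ((lintegral_indicator_one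
        (sh_meas k (hm E v))).trans (tendsto_nhds_unique (h3 _ ((hc E v).preimage (by
          unfold shift; fun_prop)) x) ((h3 _ (hc E v) (shift k x)).congr fun t =>
            (congrFun (h6 t) x).symm)))
  have h6 : ∀ e : ℝ≥0∞ → ℝ≥0∞, Continuous e → (∀ a ≤ 1, e a ≤ 1) → e (π.toMeasure (cyl D u)) = 0 →
      Tendsto (fun t => ∫⁻ x, e ((P φ)^[t] ((cyl D u).indicator 1) x) ∂π) atTop (𝓝 0) :=
    fun e he h7 h8 => by
      simpa using tendsto_lintegral_of_dominated_convergence (μ := π.toMeasure) (f := fun _ => 0)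
        (fun _ => 1) (fun t => he.measurable.comp (P_meas (loc_meas (hl D u)) t))
        (fun t => .of_forall fun x => h7 _ (by rw [h2 _ (hc D u)]; exact prob_le_one)) (by simp)
        (.of_forall fun x => h8 ▸ (he.tendsto _).comp (h3 _ (hc D u) x))
  rw [← ENNReal.tendsto_coe]
  simp only [ENNReal.coe_mul, ProbabilityMeasure.ennreal_coeFn_eq_coeFn_toMeasure]
  refine (ENNReal.tendsto_nhds (by finiteness)).mpr fun ε hε => ?_
  obtain ⟨t, h7, h8⟩ := (((h6 (· - π.toMeasure (cyl D u)) (ENNReal.continuous_sub_right _)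
    (fun a h => tsub_le_self.trans h) (tsub_self _)).eventually (ge_mem_nhds hε)).and
      ((h6 (π.toMeasure (cyl D u) - ·) (ENNReal.continuous_sub_left (by finiteness))
        (fun a _ => tsub_le_self.trans prob_le_one) (tsub_self _)).eventually
          (ge_mem_nhds hε))).exists
  filter_upwards [P_mul (φ := φ) t (hl D u) (hl E v)] with k hk
  have h9 := h4 t _ ((loc_meas (hl D u)).mul ((loc_meas (hl E v)).comp (sh_meas k)))
  rw [hk, show (cyl D u).indicator 1 * (cyl E v).indicator 1 ∘ shift k = (cyl D u ∩ shift k ⁻¹'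
    cyl E v).indicator (1 : ((Fin d → ℤ) → S) → ℝ≥0∞) from (inter_indicator_one).symm,
    lintegral_indicator_one ((hm D u).inter (sh_meas k (hm E v)))] at h9
  rw [← h9, ← h5 t k]
  have ha := P_meas (φ := φ) (loc_meas (hl D u)) t
  have hb : Measurable fun x => (P φ)^[t] ((cyl E v).indicator 1) (shift k x) :=
    (P_meas (φ := φ) (loc_meas (hl E v)) t).comp (sh_meas k)
  simp only [Pi.mul_apply, Function.comp_apply]
  have h10 : ∀ x, (P φ)^[t] ((cyl E v).indicator 1) (shift k x) ≤ 1 := fun x => by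
    rw [h2 _ (hc E v)]; exact prob_le_one
  have h11 : ∀ a b c : ℝ≥0∞, c ≤ 1 → a * c ≤ b * c + (a - b) := fun a b c h =>
    (mul_le_mul_left (le_add_tsub (b := b)) c).trans (by
      rw [add_mul]; exact add_le_add_right (mul_le_of_le_one_right' h) _)
  rw [← lintegral_const_mul _ hb]
  constructor
  · rw [tsub_le_iff_right]
    refine (lintegral_mono fun x => h11 _ ((P φ)^[t] ((cyl D u).indicator 1) x) _ (h10 x)).trans ?_
    rw [lintegral_add_left (ha.fun_mul hb)]
    exact add_le_add_right h8 _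
  · refine (lintegral_mono fun x => h11 _ (π.toMeasure (cyl D u)) _ (h10 x)).trans ?_
    rw [lintegral_add_left (hb.const_mul _)]
    exact add_le_add_right h7 _

end Pool.Agent.Results.MP_3c7ff8_pr.Mixing
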